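import Pool.Agent.Work.MP_997ab3_co.Defs
import Pool.Agent.Work.MP_997ab3_co.F.Defs
import Pool.Agent.Work.MP_997ab3_co.F.Final

open Pool.Agent.Work.MP_997ab3_co Pool.Agent.Work.MP_997ab3_co.F

/-- Let `G` be a countably infinite graph of bounded degree. The Cartesian product of `G` with the
two-way infinite path has a harmonic labeling if and only if `G` has infinitely many edges, or
some integer harmonic function on the product is injective over the non-isolated vertices of `G`
and takes there a set of values closed in the congruence topology. -/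
theorem Pool.Agent.Results.MP_997ab3_co.InfinitelyManyEdges.result :
    ∀ (V : Type) [Countable V] [Infinite V] (G : SimpleGraph V),
      (∃ Δ : ℕ, ∀ v, (G.neighborSet v).encard ≤ Δ) →
        ((∃ φ : V × ℤ → ℤ, IsHarmonicLabeling (G.boxProd (SimpleGraph.hasse ℤ)) φ) ↔
          G.edgeSet.Infinite ∨
            ∃ φ : V × ℤ → ℤ, IsHarmonicFun (G.boxProd (SimpleGraph.hasse ℤ)) φ ∧
              Set.InjOn φ (G.support ×ˢ Set.univ) ∧ CongClosed (φ '' (G.support ×ˢ Set.univ))) := by
  intro V _ _ G ⟨Δ, hΔ⟩
  classical
  have hfin : ∀ v, (G.neighborSet v).Finite := fun v => Set.finite_of_encard_le_coe (hΔ v)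
  let _ : G.LocallyFinite := fun v => (hfin v).fintype
  refine characterization (Δ := Δ) fun v => ?_
  have := hΔ v
  rw [← SimpleGraph.coe_neighborFinset, Set.encard_coe_eq_coe_finsetCard] at this
  exact_mod_cast this
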